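import Mathlib
import Pool.Agent.Helpers29.Sq5

set_option autoImplicit false
universe u

namespace Pool.Agent.Results.MP_110f0a_gt.SequentialImpliesFU

open Set Topology Filter

/-- A set is closed whenever its trace on every compact subspace `K` is closed in `K`. -/
def IsKSpace (Z : Type u) [TopologicalSpace Z] : Prop :=
  ∀ A : Set Z, (∀ K : Set Z, IsCompact K → IsClosed ((fun z : K => (z : Z)) ⁻¹' A)) → IsClosed A

/-- `C_p(X, 𝔻)`: the continuous maps `X → Bool` as a subspace of the product `X → Bool`. -/
abbrev CpD (X : Type u) [TopologicalSpace X] : Type u := {f : X → Bool // Continuous f}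

theorem isKSpace_of_compact (Z : Type u) [TopologicalSpace Z] [CompactSpace Z] : IsKSpace Z := by
  intro A h
  have h1 := h univ isCompact_univ
  have h2 : IsClosed ((fun z : (univ : Set Z) => (z : Z)) '' ((fun z : (univ : Set Z) => (z : Z)) ⁻¹' A)) :=
    isClosed_univ.isClosedEmbedding_subtypeVal.isClosedMap _ h1
  have h3 : (fun z : (univ : Set Z) => (z : Z)) '' ((fun z : (univ : Set Z) => (z : Z)) ⁻¹' A) = A := by
    ext z
    constructor
    · rintro ⟨w, hw, rfl⟩
      exact hw
    · intro hz
      exact ⟨⟨z, mem_univ z⟩, hz, rfl⟩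
  rw [h3] at h2
  exact h2

theorem compact_of_discrete (X : Type) [TopologicalSpace X] [DiscreteTopology X] :
    CompactSpace (CpD X) := by
  have h : IsClosed {f : X → Bool | Continuous f} := by
    have : {f : X → Bool | Continuous f} = univ := by
      ext f
      simp only [mem_univ, iff_true]
      exact (continuous_of_discreteTopology : Continuous f)
    rw [this]
    exact isClosed_univ
  exact isCompact_iff_compactSpace.1 h.isCompact

theorem not_FU_of_uncountable (X : Type) [TopologicalSpace X] [DiscreteTopology X]
    (hX : ¬ (univ : Set X).Countable) : ¬ FrechetUrysohnSpace (CpD X) := by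
  classical
  intro hFU
  let A : Set (CpD X) := {f | {x | f.1 x = true}.Finite}
  let one : CpD X := ⟨fun _ => true, continuous_const⟩
  have h1 : one ∈ closure A := by
    rw [mem_closure_iff]
    intro o ho hz
    obtain ⟨o', ho', rfl⟩ := isOpen_induced_iff.1 ho
    obtain ⟨I, v, hv, hsub⟩ := isOpen_pi_iff.1 ho' one.1 hz
    refine ⟨⟨fun x => decide (x ∈ I), continuous_of_discreteTopology⟩, ?_, ?_⟩
    · apply hsub
      intro x hx
      have : (decide (x ∈ I)) = true := decide_eq_true hx
      show decide (x ∈ I) ∈ v x
      rw [this]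
      exact (hv x hx).2
    · refine (Finset.finite_toSet I).subset ?_
      intro x hx
      exact of_decide_eq_true hx
  obtain ⟨f, hfA, hf⟩ := hFU.closure_subset_seqClosure A h1
  apply hX
  refine (countable_iUnion (fun k => (hfA k).countable)).mono ?_
  intro x _
  rw [tendsto_subtype_rng, tendsto_pi_nhds] at hf
  have h2 := hf x
  rw [nhds_discrete, tendsto_pure] at h2
  obtain ⟨k, hk⟩ := h2.exists
  exact mem_iUnion.2 ⟨k, hk⟩

/-- Q1 has a negative answer, and Q2 has a positive answer (for every topological space `X`,
zero-dimensional or not). -/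
theorem result :
    (∃ (X : Type) (_ : TopologicalSpace X),
      T35Space X ∧ TopologicalSpace.IsTopologicalBasis {s : Set X | IsClopen s} ∧
      IsKSpace (CpD X) ∧ ¬ FrechetUrysohnSpace (CpD X)) ∧
    (∀ (X : Type u) [TopologicalSpace X], SequentialSpace (CpD X) → FrechetUrysohnSpace (CpD X)) := by
  constructor
  · refine ⟨Set ℕ, ⊥, ?_⟩
    let _ : TopologicalSpace (Set ℕ) := ⊥
    have hd : DiscreteTopology (Set ℕ) := ⟨rfl⟩
    refine ⟨inferInstance, ?_, ?_, ?_⟩
    · apply TopologicalSpace.isTopologicalBasis_of_isOpen_of_nhds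
      · intro s hs
        exact hs.2
      · intro x s hx _
        exact ⟨{x}, isClopen_discrete _, rfl, singleton_subset_iff.2 hx⟩
    · have := compact_of_discrete (Set ℕ)
      exact isKSpace_of_compact _
    · apply not_FU_of_uncountable
      intro hc
      have h1 : Countable (Set ℕ) := Set.countable_univ_iff.1 hc
      obtain ⟨f, hf⟩ := exists_injective_nat (Set ℕ)
      exact Function.cantor_injective f hf
  · intro X _ h
    exact Pool.Agent.Helpers29.Sq.frechet_of_sequential

end Pool.Agent.Results.MP_110f0a_gt.SequentialImpliesFU
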